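import Mathlib

/-!
# Shang's conjecture on the free alternative algebras: definitions

Formal characters.  For `dim V = d` the ring `R` (Grothendieck ring of polynomial
`GL(V)`-modules, completed) is a subring of `ℤ⟦x_1,…,x_d⟧` = `MvPowerSeries (Fin d) ℤ` by formal
characters; the class of a graded module is the generating function of the dimensions of its weight
spaces.  `K(PSL₃)` is a subring of `ℤ[e^{±α₁}, e^{±α₂}]` (the root lattice is the character lattice
of the maximal torus of `PSL₃`).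
-/

set_option autoImplicit false

namespace Pool.Agent.X170.Shang

/-- Laurent polynomials `ℤ[e^{±α₁}, e^{±α₂}]`: the weight `m α₁ + n α₂` is the pair `(m, n)`. -/
abbrev Lau : Type := AddMonoidAlgebra ℤ (ℤ × ℤ)

/-- the character `e^γ` -/
noncomputable def e (γ : ℤ × ℤ) : Lau := AddMonoidAlgebra.single γ 1

/-- the character of the adjoint module `L(α₁+α₂)` of `PSL₃`: twice the weight `0`, and the six
roots -/
noncomputable def adj : Lau :=
  2 * e (0, 0) + e (1, 0) + e (0, 1) + e (1, 1) + e (-1, 0) + e (0, -1) + e (-1, -1)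

/-- the Weyl denominator `∑_w sgn(w) e^{wρ}`, where `ρ = α₁ + α₂` -/
noncomputable def Del : Lau :=
  e (1, 1) - e (0, 1) - e (1, 0) + e (-1, 0) + e (0, -1) - e (-1, -1)

/-- the multiplicity of the simple module `L(l)` in the (virtual) module with character `X`, by
Weyl's character formula: the coefficient of `e^{l+ρ}` in `X · ∑_w sgn(w) e^{wρ}` -/
noncomputable def mult (l : ℤ × ℤ) (X : Lau) : ℤ := (X * Del).coeff (l + (1, 1))

variable {d : ℕ}

/-- `1 - x^μ e^γ` -/
noncomputable def oneSub (μ : Fin d →₀ ℕ) (γ : ℤ × ℤ) : MvPowerSeries (Fin d) Lau :=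
  1 - MvPowerSeries.monomial μ (e γ)

/-- `(1 - x^μ e^γ)^m` for an integer `m` (used only for `μ ≠ 0`) -/
noncomputable def oneSubPow (μ : Fin d →₀ ℕ) (γ : ℤ × ℤ) : ℤ → MvPowerSeries (Fin d) Lau
  | Int.ofNat m => oneSub μ γ ^ m
  | Int.negSucc m => (MvPowerSeries.invOfUnit (oneSub μ γ) 1) ^ (m + 1)

/-- the operation `λ`, `λ([U]) = ∑ (-1)^k [Λ^k U]`, extended multiplicatively to virtual modules:
if `c = ∑ c_{μ,γ} x^μ e^γ` (sum over `μ ≠ 0`), then `λ(c) = ∏ (1 - x^μ e^γ)^{c_{μ,γ}}`.  The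
coefficient at `x^ν` only involves the factors with `μ ≤ ν`. -/
noncomputable def lam (c : MvPowerSeries (Fin d) Lau) : MvPowerSeries (Fin d) Lau := fun ν =>
  MvPowerSeries.coeff ν (∏ μ ∈ (Finset.Iic ν).erase 0,
    ∏ γ ∈ (MvPowerSeries.coeff μ c).coeff.support,
      oneSubPow μ γ ((MvPowerSeries.coeff μ c).coeff γ))

/-- `Φ = λ(a [L(α₁+α₂)] + b [L(0)])` -/
noncomputable def Phi (a b : MvPowerSeries (Fin d) ℤ) : MvPowerSeries (Fin d) Lau :=
  lam fun μ => MvPowerSeries.coeff μ a • adj + MvPowerSeries.coeff μ b • 1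

/-- the coefficient `[X : [L(l)]] ∈ R` of `[L(l)]` in `X` -/
noncomputable def coef (l : ℤ × ℤ) (X : MvPowerSeries (Fin d) Lau) : MvPowerSeries (Fin d) ℤ :=
  fun ν => mult l (MvPowerSeries.coeff ν X)

/-- the equations which define `(a(V), b(V))` for `dim V = d`: `a, b ∈ R_+`,
`[Φ : [L(0)]] = [k]` and `[Φ : [L(α₁+α₂)]] = -[V]` -/
structure Solves (a b : MvPowerSeries (Fin d) ℤ) : Prop where
  a_zero : MvPowerSeries.constantCoeff a = 0
  b_zero : MvPowerSeries.constantCoeff b = 0
  triv : coef (0, 0) (Phi a b) = 1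
  adj : coef (1, 1) (Phi a b) = - ∑ i, MvPowerSeries.X i

/-- the ideal of the free nonassociative algebra generated by all `(u u) v - u (u v)` and
`(v u) u - v (u u)` -/
noncomputable def altIdeal (k : Type*) [Field k] (d : ℕ) :
    Submodule k (FreeNonUnitalNonAssocAlgebra k (Fin d)) :=
  sInf {J | (∀ u v, (u * u) * v - u * (u * v) ∈ J) ∧ (∀ u v, (v * u) * u - v * (u * u) ∈ J) ∧
    ∀ u, ∀ x ∈ J, u * x ∈ J ∧ x * u ∈ J}

/-- the free (non-unital) alternative algebra `Alt(V)`, `V = k^d` -/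
abbrev Alt (k : Type*) [Field k] (d : ℕ) : Type _ :=
  FreeNonUnitalNonAssocAlgebra k (Fin d) ⧸ altIdeal k d

/-- the multidegree of a nonassociative word in the letters `x_1, …, x_d` -/
noncomputable def mdeg : FreeMagma (Fin d) → (Fin d →₀ ℕ)
  | .of i => Finsupp.single i 1
  | .mul u v => mdeg u + mdeg v

/-- the component of multidegree `μ` (= weight space of weight `μ`) of `Alt(V)` -/
noncomputable def altPiece (k : Type*) [Field k] (d : ℕ) (μ : Fin d →₀ ℕ) :
    Submodule k (Alt k d) :=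
  Submodule.span k {x | ∃ w : FreeMagma (Fin d), mdeg w = μ ∧
    x = Submodule.Quotient.mk (MonoidAlgebra.single w 1)}

/-- the class `[Alt(V)]` -/
noncomputable def clsAlt (k : Type*) [Field k] (d : ℕ) : MvPowerSeries (Fin d) ℤ :=
  fun μ => (Module.finrank k (altPiece k d μ) : ℤ)

/-- the multidegree `(1,…,1)` on the set `S` -/
noncomputable def ind (S : Finset (Fin d)) : Fin d →₀ ℕ := ∑ i ∈ S, Finsupp.single i 1

end Pool.Agent.X170.Shang
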