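import Pool.Agent.X170.Shang.Num

set_option autoImplicit false

namespace Pool.Agent.X170.Shang

open scoped BigOperators
open MvPowerSeries Finset

variable {d : ℕ}

instance : WellFoundedLT (Fin d →₀ ℕ) := inferInstance

section
variable {L : Type*} [CommRing L]

/-- series without terms `≤ μ` -/
def Jm (μ : Fin d →₀ ℕ) (L : Type*) [CommRing L] : Ideal (MvPowerSeries (Fin d) L) where
  carrier := {f | ∀ ν ≤ μ, coeff ν f = 0}
  add_mem' := fun {f g} hf hg S hS => by rw [map_add, hf S hS, hg S hS, add_zero]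
  zero_mem' := fun S _ => map_zero _
  smul_mem' := fun f g hg S hS => by
    classical
    rw [smul_eq_mul, coeff_mul]
    refine Finset.sum_eq_zero fun p hp => ?_
    rw [HasAntidiagonal.mem_antidiagonal] at hp
    rw [hg p.2 (le_trans (hp ▸ le_add_self) hS), mul_zero]

lemma mkm_eq_iff {μ : Fin d →₀ ℕ} {f g : MvPowerSeries (Fin d) L} :
    Ideal.Quotient.mk (Jm μ L) f = Ideal.Quotient.mk (Jm μ L) g ↔
      ∀ ν ≤ μ, coeff ν f = coeff ν g := by
  rw [Ideal.Quotient.eq]
  constructor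
  · intro h S hS
    have := h S hS
    rw [map_sub, sub_eq_zero] at this
    exact this
  · intro h S hS
    rw [map_sub, h S hS, sub_self]

lemma mkm_mul {μ : Fin d →₀ ℕ} (hμ : μ ≠ 0) (a b : L) :
    Ideal.Quotient.mk (Jm μ L) (monomial μ a) * Ideal.Quotient.mk (Jm μ L) (monomial μ b) = 0 := by
  classical
  rw [← map_mul, monomial_mul_monomial, ← map_zero (Ideal.Quotient.mk (Jm μ L)), mkm_eq_iff]
  intro ν hν
  rw [coeff_monomial, if_neg, map_zero]
  rintro rfl
  apply hμ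
  ext i
  have := hν i
  rw [Finsupp.add_apply] at this
  rw [Finsupp.zero_apply]; omega

lemma mkm_prod {ι : Type*} {μ : Fin d →₀ ℕ} (hμ : μ ≠ 0) (s : Finset ι) (c : ι → L) :
    Ideal.Quotient.mk (Jm μ L) (∏ i ∈ s, (1 - monomial μ (c i))) =
      1 - Ideal.Quotient.mk (Jm μ L) (monomial μ (∑ i ∈ s, c i)) := by
  classical
  induction s using Finset.induction_on with
  | empty => simp
  | insert a s ha ih =>
    rw [Finset.prod_insert ha, map_mul, ih, Finset.sum_insert ha, map_sub, map_one, map_add,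
      map_add]
    have := mkm_mul hμ (c a) (∑ i ∈ s, c i)
    linear_combination this

lemma mkm_inv {μ : Fin d →₀ ℕ} (hμ : μ ≠ 0) (c : L) :
    Ideal.Quotient.mk (Jm μ L) (invOfUnit (1 - monomial μ c) 1) =
      1 - Ideal.Quotient.mk (Jm μ L) (monomial μ (-c)) := by
  classical
  have h0 : constantCoeff (1 - monomial μ c : MvPowerSeries (Fin d) L) = ((1 : Lˣ) : L) := by
    rw [map_sub, map_one, ← coeff_zero_eq_constantCoeff_apply, coeff_monomial, if_neg (Ne.symm hμ),
      sub_zero, Units.val_one]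
  have h1 := mul_invOfUnit (1 - monomial μ c : MvPowerSeries (Fin d) L) 1 h0
  have h2 := congrArg (Ideal.Quotient.mk (Jm μ L)) h1
  rw [map_mul, map_sub, map_one] at h2
  set X := Ideal.Quotient.mk (Jm μ L) (monomial μ c) with hX
  set I := Ideal.Quotient.mk (Jm μ L) (invOfUnit (1 - monomial μ c) 1) with hI
  have hXX : X * X = 0 := mkm_mul hμ _ _
  have h3 : Ideal.Quotient.mk (Jm μ L) (monomial μ (-c)) = -X := by
    rw [map_neg, map_neg]
  rw [h3]
  calc I = (1 + X) * ((1 - X) * I) + X * X * I := by ring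
    _ = 1 - -X := by rw [h2, hXX]; ring

end

lemma mkm_oneSubPow {μ : Fin d →₀ ℕ} (hμ : μ ≠ 0) (γ : ℤ × ℤ) (m : ℤ) :
    Ideal.Quotient.mk (Jm μ Lau) (oneSubPow μ γ m) =
      1 - Ideal.Quotient.mk (Jm μ Lau) (monomial μ (AddMonoidAlgebra.single γ m)) := by
  match m with
  | Int.ofNat n =>
    show Ideal.Quotient.mk (Jm μ Lau) ((1 - monomial μ (e γ)) ^ n) = _
    have h := mkm_prod hμ (range n) (fun _ => e γ)
    rw [Finset.prod_const, Finset.sum_const, card_range] at h
    rw [h]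
    unfold e
    rw [AddMonoidAlgebra.smul_single]
    simp
  | Int.negSucc n =>
    show Ideal.Quotient.mk (Jm μ Lau) ((invOfUnit (1 - monomial μ (e γ)) 1) ^ (n + 1)) = _
    have h := mkm_prod hμ (range (n + 1)) (fun _ => -e γ)
    rw [Finset.prod_const, Finset.sum_const, card_range] at h
    rw [map_pow, mkm_inv hμ, ← map_one (Ideal.Quotient.mk (Jm μ Lau)), ← map_sub, ← map_pow,
      h, ← map_one (Ideal.Quotient.mk (Jm μ Lau)), ← map_sub]
    unfold e
    rw [smul_neg, AddMonoidAlgebra.smul_single, Int.negSucc_eq]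
    simp

/-- one factor of `λ` -/
noncomputable def G (μ : Fin d →₀ ℕ) (x : Lau) : MvPowerSeries (Fin d) Lau :=
  ∏ γ ∈ x.coeff.support, oneSubPow μ γ (x.coeff γ)

lemma mkm_G {μ : Fin d →₀ ℕ} (hμ : μ ≠ 0) (x : Lau) :
    Ideal.Quotient.mk (Jm μ Lau) (G μ x) = Ideal.Quotient.mk (Jm μ Lau) (1 - monomial μ x) := by
  unfold G
  rw [map_prod, Finset.prod_congr rfl fun γ _ => mkm_oneSubPow hμ γ (x.coeff γ)]
  have h2 := mkm_prod hμ (x.coeff.support) (fun γ => AddMonoidAlgebra.single γ (x.coeff γ))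
  rw [map_prod] at h2
  simp only [map_sub, map_one] at h2 ⊢
  rw [h2]
  congr 3
  exact AddMonoidAlgebra.sum_coeff_single _

lemma const_G {μ : Fin d →₀ ℕ} (hμ : μ ≠ 0) (x : Lau) : constantCoeff (G μ x) = 1 := by
  classical
  have h := mkm_eq_iff.1 (mkm_G hμ x) 0 zero_le
  rw [coeff_zero_eq_constantCoeff_apply] at h
  rw [h, map_sub, coeff_zero_one, coeff_monomial, if_neg (Ne.symm hμ), sub_zero]

/-- the part of the coefficient of `Φ` which involves only the coefficients `< ν` -/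
noncomputable def H (ν : Fin d →₀ ℕ) (a b : MvPowerSeries (Fin d) ℤ) : Lau :=
  coeff ν (∏ μ ∈ ((Finset.Iic ν).erase 0).erase ν, G μ (coeff μ a • adj + coeff μ b • 1))

lemma coeff_Phi {ν : Fin d →₀ ℕ} (hν : ν ≠ 0) (a b : MvPowerSeries (Fin d) ℤ) :
    coeff ν (Phi a b) = H ν a b - (coeff ν a • adj + coeff ν b • 1) := by
  classical
  have h0 : coeff ν (Phi a b) = coeff ν (∏ μ ∈ (Finset.Iic ν).erase 0,
      G μ (coeff μ a • adj + coeff μ b • 1)) := rfl
  have hmem : ν ∈ (Finset.Iic ν).erase 0 := by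
    rw [Finset.mem_erase, Finset.mem_Iic]; exact ⟨hν, le_rfl⟩
  rw [h0, ← Finset.mul_prod_erase _ _ hmem]
  have h1 : Ideal.Quotient.mk (Jm ν Lau) (G ν (coeff ν a • adj + coeff ν b • 1) *
      ∏ μ ∈ ((Finset.Iic ν).erase 0).erase ν, G μ (coeff μ a • adj + coeff μ b • 1)) =
      Ideal.Quotient.mk (Jm ν Lau) ((1 - monomial ν (coeff ν a • adj + coeff ν b • 1)) *
      ∏ μ ∈ ((Finset.Iic ν).erase 0).erase ν, G μ (coeff μ a • adj + coeff μ b • 1)) := by
    rw [map_mul, mkm_G hν, ← map_mul]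
  rw [mkm_eq_iff.1 h1 ν le_rfl, sub_mul, one_mul, map_sub]
  unfold H
  congr 1
  have h2 := coeff_add_monomial_mul (R := Lau) ν 0
    (∏ μ ∈ ((Finset.Iic ν).erase 0).erase ν, G μ (coeff μ a • adj + coeff μ b • 1))
    (coeff ν a • adj + coeff ν b • 1)
  rw [add_zero] at h2
  rw [h2, coeff_zero_eq_constantCoeff_apply, map_prod, Finset.prod_eq_one, mul_one]
  intro μ hμ
  rw [Finset.mem_erase, Finset.mem_erase] at hμ
  exact const_G hμ.2.1 _

lemma coeff_Phi_zero (a b : MvPowerSeries (Fin d) ℤ) : coeff 0 (Phi a b) = 1 := by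
  classical
  have h0 : coeff 0 (Phi a b) = coeff 0 (∏ μ ∈ (Finset.Iic (0 : Fin d →₀ ℕ)).erase 0,
      G μ (coeff μ a • adj + coeff μ b • 1)) := rfl
  have h1 : (Finset.Iic (0 : Fin d →₀ ℕ)).erase 0 = ∅ := by
    ext μ
    rw [Finset.mem_erase, Finset.mem_Iic]
    constructor
    · rintro ⟨h, h'⟩; exact absurd (le_antisymm h' zero_le) h
    · intro h; exact absurd h (Finset.notMem_empty _)
  rw [h0, h1, Finset.prod_empty, coeff_zero_one]

lemma m00 : mult (0, 0) (1 : Lau) = 1 := mult_zero_val 0 (by omega)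
lemma m01 : mult (0, 0) adj = 0 := by
  have := mult_zero_val 1 (by omega); rwa [pow_one] at this
lemma m10 : mult (1, 1) (1 : Lau) = 0 := mult_one_val 0 (by omega)
lemma m11 : mult (1, 1) adj = 1 := by
  have := mult_one_val 1 (by omega); rwa [pow_one] at this

lemma mult_Phi0 {ν : Fin d →₀ ℕ} (hν : ν ≠ 0) (a b : MvPowerSeries (Fin d) ℤ) :
    mult (0, 0) (coeff ν (Phi a b)) = mult (0, 0) (H ν a b) - coeff ν b := by
  rw [coeff_Phi hν, sub_eq_add_neg, mult_add, mult_neg, mult_add, mult_smul, mult_smul, m00, m01]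
  ring

lemma mult_Phi1 {ν : Fin d →₀ ℕ} (hν : ν ≠ 0) (a b : MvPowerSeries (Fin d) ℤ) :
    mult (1, 1) (coeff ν (Phi a b)) = mult (1, 1) (H ν a b) - coeff ν a := by
  rw [coeff_Phi hν, sub_eq_add_neg, mult_add, mult_neg, mult_add, mult_smul, mult_smul, m10, m11]
  ring

/-- the recursion -/
def Recur (a b : MvPowerSeries (Fin d) ℤ) : Prop :=
  coeff 0 a = 0 ∧ coeff 0 b = 0 ∧ ∀ ν ≠ 0, coeff ν b = mult (0, 0) (H ν a b) ∧
    coeff ν a = mult (1, 1) (H ν a b) + coeff ν (∑ i, X i : MvPowerSeries (Fin d) ℤ)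

lemma solves_iff (a b : MvPowerSeries (Fin d) ℤ) : Solves a b ↔ Recur a b := by
  constructor
  · intro h
    refine ⟨h.a_zero, h.b_zero, fun ν hν => ?_⟩
    have h1 : mult (0, 0) (coeff ν (Phi a b)) = coeff ν (1 : MvPowerSeries (Fin d) ℤ) :=
      congrArg (coeff ν) h.triv
    have h2 : mult (1, 1) (coeff ν (Phi a b)) =
        coeff ν (-∑ i, X i : MvPowerSeries (Fin d) ℤ) := congrArg (coeff ν) h.adj
    rw [mult_Phi0 hν, coeff_one, if_neg hν] at h1
    rw [mult_Phi1 hν, map_neg] at h2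
    constructor <;> linarith
  · rintro ⟨ha, hb, h⟩
    refine ⟨ha, hb, ?_, ?_⟩
    · ext ν
      show mult (0, 0) (coeff ν (Phi a b)) = _
      by_cases hν : ν = 0
      · rw [hν, coeff_Phi_zero, m00, coeff_zero_one]
      · rw [mult_Phi0 hν, coeff_one, if_neg hν, (h ν hν).1, sub_self]
    · ext ν
      show mult (1, 1) (coeff ν (Phi a b)) = _
      by_cases hν : ν = 0
      · rw [hν, coeff_Phi_zero, m10, map_neg, map_sum]
        simp
      · rw [mult_Phi1 hν, map_neg, (h ν hν).2]; ring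

lemma H_congr (ν : Fin d →₀ ℕ) (a b a' b' : MvPowerSeries (Fin d) ℤ)
    (h : ∀ μ < ν, coeff μ a = coeff μ a' ∧ coeff μ b = coeff μ b') : H ν a b = H ν a' b' := by
  unfold H
  congr 1
  apply Finset.prod_congr rfl
  intro μ hμ
  rw [Finset.mem_erase, Finset.mem_erase, Finset.mem_Iic] at hμ
  have h1 := h μ (lt_of_le_of_ne hμ.2.2 hμ.1)
  rw [h1.1, h1.2]

/-- the solution, by well-founded recursion -/
noncomputable def sol : (Fin d →₀ ℕ) → ℤ × ℤ :=
  WellFounded.fix (C := fun _ => ℤ × ℤ) (wellFounded_lt (α := Fin d →₀ ℕ)) fun ν prev =>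
    open Classical in
    if ν = 0 then (0, 0) else
      let a : MvPowerSeries (Fin d) ℤ := fun μ => if h : μ < ν then (prev μ h).1 else 0
      let b : MvPowerSeries (Fin d) ℤ := fun μ => if h : μ < ν then (prev μ h).2 else 0
      (mult (1, 1) (H ν a b) + coeff ν (∑ i, X i : MvPowerSeries (Fin d) ℤ), mult (0, 0) (H ν a b))

noncomputable def solA : MvPowerSeries (Fin d) ℤ := fun μ => (sol μ).1
noncomputable def solB : MvPowerSeries (Fin d) ℤ := fun μ => (sol μ).2

lemma sol_zero : sol (0 : Fin d →₀ ℕ) = (0, 0) := by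
  unfold sol
  rw [WellFounded.fix_eq, if_pos rfl]

lemma sol_eq {ν : Fin d →₀ ℕ} (hν : ν ≠ 0) : sol ν =
    (mult (1, 1) (H ν solA solB) + coeff ν (∑ i, X i : MvPowerSeries (Fin d) ℤ),
      mult (0, 0) (H ν solA solB)) := by
  classical
  unfold sol
  rw [WellFounded.fix_eq, if_neg hν]
  have h1 : H ν (fun μ => if h : μ < ν then ((sol μ).1) else 0 : MvPowerSeries (Fin d) ℤ)
      (fun μ => if h : μ < ν then ((sol μ).2) else 0 : MvPowerSeries (Fin d) ℤ) =
      H ν solA solB := by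
    apply H_congr
    intro μ hμ
    constructor
    · show (if h : μ < ν then ((sol μ).1) else 0) = (sol μ).1
      rw [dif_pos hμ]
    · show (if h : μ < ν then ((sol μ).2) else 0) = (sol μ).2
      rw [dif_pos hμ]
  have h2 : ∀ (p : ℤ × ℤ → ℤ), (fun μ => if h : μ < ν then (p (sol μ)) else 0 :
    MvPowerSeries (Fin d) ℤ) = fun μ => if h : μ < ν then (p (sol μ)) else 0 := fun _ => rfl
  rw [← h1]
  rfl

theorem solves_sol : Solves (solA (d := d)) solB := by
  rw [solves_iff]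
  refine ⟨?_, ?_, fun ν hν => ?_⟩
  · show (sol (0 : Fin d →₀ ℕ)).1 = 0
    rw [sol_zero]
  · show (sol (0 : Fin d →₀ ℕ)).2 = 0
    rw [sol_zero]
  · have h := sol_eq hν
    exact ⟨congrArg Prod.snd h, congrArg Prod.fst h⟩

theorem solves_unique (a b a' b' : MvPowerSeries (Fin d) ℤ) (h : Solves a b) (h' : Solves a' b') :
    a = a' ∧ b = b' := by
  rw [solves_iff] at h h'
  have key : ∀ ν : Fin d →₀ ℕ, coeff ν a = coeff ν a' ∧ coeff ν b = coeff ν b' := by
    intro ν
    induction ν using WellFoundedLT.induction with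
    | ind ν ih =>
      by_cases hν : ν = 0
      · subst hν
        exact ⟨h.1.trans h'.1.symm, h.2.1.trans h'.2.1.symm⟩
      · have h1 := H_congr ν a b a' b' ih
        obtain ⟨h2, h3⟩ := h.2.2 ν hν
        obtain ⟨h4, h5⟩ := h'.2.2 ν hν
        rw [h1] at h2 h3
        exact ⟨h3.trans h5.symm, h2.trans h4.symm⟩
  exact ⟨MvPowerSeries.ext fun ν => (key ν).1, MvPowerSeries.ext fun ν => (key ν).2⟩

end Pool.Agent.X170.Shang
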