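import Pool.Agent.X170.Shang.Defs

set_option autoImplicit false

namespace Pool.Agent.X170.Shang

open scoped BigOperators

variable {d : ℕ}

/-- total degree -/
def tdeg (μ : Fin d →₀ ℕ) : ℕ := μ.sum fun _ n => n

lemma length_eq (w : FreeMagma (Fin d)) : w.length = tdeg (mdeg w) := by
  induction w with
  | ih1 i => simp [mdeg, tdeg, FreeMagma.length]
  | ih2 u v hu hv =>
    show u.length + v.length = tdeg (mdeg u + mdeg v)
    rw [hu, hv]
    unfold tdeg
    rw [Finsupp.sum_add_index'] <;> simp

lemma finite_length (n : ℕ) : {w : FreeMagma (Fin d) | w.length ≤ n}.Finite := by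
  induction n with
  | zero =>
    convert Set.finite_empty
    ext w
    simp only [Set.mem_ofPred_eq, Set.mem_empty_iff_false, iff_false]
    have := w.length_pos
    omega
  | succ n ih =>
    refine ((Set.finite_range (FreeMagma.of : Fin d → FreeMagma (Fin d))).union
      (Set.Finite.image2 (fun u v => u * v) ih ih)).subset ?_
    intro w hw
    induction w with
    | ih1 i => exact Or.inl ⟨i, rfl⟩
    | ih2 u v _ _ =>
      right
      have h1 : u.length + v.length ≤ n + 1 := hw
      have h2 := u.length_pos
      have h3 := v.length_pos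
      exact ⟨u, (by show u.length ≤ n; omega), v, (by show v.length ≤ n; omega), rfl⟩

lemma finite_mdeg (μ : Fin d →₀ ℕ) : {w : FreeMagma (Fin d) | mdeg w = μ}.Finite := by
  refine (finite_length (tdeg μ)).subset ?_
  intro w hw
  show w.length ≤ tdeg μ
  rw [length_eq, hw]

variable (k : Type*) [Field k]

instance altPiece_finite (μ : Fin d →₀ ℕ) : Module.Finite k (altPiece k d μ) := by
  apply Module.Finite.span_of_finite
  refine ((finite_mdeg μ).image fun w =>
    (Submodule.Quotient.mk (MonoidAlgebra.single w 1) : Alt k d)).subset ?_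
  rintro _ ⟨w, hw, rfl⟩
  exact ⟨w, hw, rfl⟩

/-- the free associative algebra -/
abbrev As (k : Type*) [Field k] (d : ℕ) : Type _ := MonoidAlgebra k (FreeMonoid (Fin d))

noncomputable def toAs : FreeNonUnitalNonAssocAlgebra k (Fin d) →ₙₐ[k] As k d :=
  FreeNonUnitalNonAssocAlgebra.lift k fun i => MonoidAlgebra.single (FreeMonoid.of i) 1

/-- the associative word -/
def flat : FreeMagma (Fin d) → FreeMonoid (Fin d)
  | .of i => FreeMonoid.of i
  | .mul u v => flat u * flat v

lemma toAs_single (w : FreeMagma (Fin d)) :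
    toAs k (MonoidAlgebra.single w 1) = MonoidAlgebra.single (flat w) 1 := by
  induction w with
  | ih1 i =>
    have := FreeNonUnitalNonAssocAlgebra.lift_of_apply k
      (fun i : Fin d => (MonoidAlgebra.single (FreeMonoid.of i) 1 : As k d)) i
    exact this
  | ih2 u v hu hv =>
    have h1 : (MonoidAlgebra.single (u * v) 1 : FreeNonUnitalNonAssocAlgebra k (Fin d)) =
        MonoidAlgebra.single u 1 * MonoidAlgebra.single v 1 := by
      rw [MonoidAlgebra.single_mul_single, one_mul]
    rw [h1, map_mul, hu, hv, MonoidAlgebra.single_mul_single, one_mul]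
    rfl

lemma altIdeal_le : altIdeal k d ≤ LinearMap.ker
    ((toAs k : FreeNonUnitalNonAssocAlgebra k (Fin d) →ₙₐ[k] As k d) :
      FreeNonUnitalNonAssocAlgebra k (Fin d) →ₗ[k] As k d) := by
  apply sInf_le
  refine ⟨fun u v => ?_, fun u v => ?_, fun u x hx => ⟨?_, ?_⟩⟩
  · rw [LinearMap.mem_ker]
    show toAs k ((u * u) * v - u * (u * v)) = 0
    rw [map_sub, map_mul, map_mul, map_mul, map_mul, mul_assoc, sub_self]
  · rw [LinearMap.mem_ker]
    show toAs k ((v * u) * u - v * (u * u)) = 0
    rw [map_sub, map_mul, map_mul, map_mul, map_mul, mul_assoc, sub_self]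
  · rw [LinearMap.mem_ker] at hx ⊢
    have hx' : toAs k x = 0 := hx
    show toAs k (u * x) = 0
    rw [map_mul, hx', mul_zero]
  · rw [LinearMap.mem_ker] at hx ⊢
    have hx' : toAs k x = 0 := hx
    show toAs k (x * u) = 0
    rw [map_mul, hx', zero_mul]

/-- the map `Alt(V) → T(V)` -/
noncomputable def altToAs : Alt k d →ₗ[k] As k d :=
  (altIdeal k d).liftQ _ (altIdeal_le k)

lemma altToAs_mk (w : FreeMagma (Fin d)) :
    altToAs k (Submodule.Quotient.mk (MonoidAlgebra.single w 1)) =
      MonoidAlgebra.single (flat w) 1 := by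
  unfold altToAs
  rw [Submodule.liftQ_apply]
  exact toAs_single k w

/-- right-normed words -/
def rn : Fin d → List (Fin d) → FreeMagma (Fin d)
  | i, [] => .of i
  | i, j :: l => .mul (.of i) (rn j l)

lemma flat_rn (i : Fin d) (l : List (Fin d)) : flat (rn i l) = FreeMonoid.ofList (i :: l) := by
  induction l generalizing i with
  | nil => rfl
  | cons j l ih =>
    show FreeMonoid.of i * flat (rn j l) = _
    rw [ih]; rfl

lemma mdeg_rn (i : Fin d) (l : List (Fin d)) :
    mdeg (rn i l) = ((i :: l).map fun j => Finsupp.single j 1).sum := by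
  induction l generalizing i with
  | nil => simp [rn, mdeg]
  | cons j l ih =>
    show Finsupp.single i 1 + mdeg (rn j l) = _
    rw [ih]; simp only [List.map_cons, List.sum_cons]

/-- `[Alt(V)]` is at least `n!` in multidegree `(1,…,1)` (`n` ones) -/
theorem factorial_le (n : ℕ) (ι : Fin (n + 1) ↪ Fin d) :
    ((n + 1).factorial : ℤ) ≤ MvPowerSeries.coeff (ind (Finset.univ.map ι)) (clsAlt k d) := by
  set μ := ind (Finset.univ.map ι) with hμ
  -- the words
  let lst : Equiv.Perm (Fin (n + 1)) → List (Fin d) := fun σ =>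
    List.ofFn fun i => ι (σ i)
  let W : Equiv.Perm (Fin (n + 1)) → FreeMagma (Fin d) := fun σ =>
    rn (ι (σ 0)) (List.ofFn fun i : Fin n => ι (σ i.succ))
  have hlst : ∀ σ, lst σ = ι (σ 0) :: (List.ofFn fun i : Fin n => ι (σ i.succ)) := by
    intro σ
    exact List.ofFn_succ
  have hW : ∀ σ, flat (W σ) = FreeMonoid.ofList (lst σ) := by
    intro σ
    rw [hlst]; exact flat_rn _ _
  have hWd : ∀ σ, mdeg (W σ) = μ := by
    intro σ
    show mdeg (rn _ _) = μ
    rw [mdeg_rn, ← hlst, List.map_ofFn, List.sum_ofFn, hμ]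
    unfold ind
    rw [Finset.sum_map]
    exact Equiv.sum_comp σ fun i => Finsupp.single (ι i) 1
  let v : Equiv.Perm (Fin (n + 1)) → altPiece k d μ := fun σ =>
    ⟨Submodule.Quotient.mk (MonoidAlgebra.single (W σ) 1),
      Submodule.subset_span ⟨W σ, hWd σ, rfl⟩⟩
  have hinj : Function.Injective fun σ => FreeMonoid.ofList (lst σ) := by
    intro σ τ h
    have h1 : lst σ = lst τ := FreeMonoid.ofList.injective h
    have h2 := List.ofFn_injective h1
    ext i
    have h3 := congrFun h2 i
    exact congrArg Fin.val (ι.injective h3)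
  have hli : LinearIndependent k v := by
    apply LinearIndependent.of_comp ((altToAs k).comp (altPiece k d μ).subtype)
    have h1 : (((altToAs k).comp (altPiece k d μ).subtype) ∘ v) =
        fun σ => (MonoidAlgebra.single (FreeMonoid.ofList (lst σ)) 1 : As k d) := by
      funext σ
      show altToAs k (Submodule.Quotient.mk (MonoidAlgebra.single (W σ) 1)) = _
      rw [altToAs_mk, hW]
    rw [h1]
    have h2 : LinearIndependent k (fun m : FreeMonoid (Fin d) =>
        (MonoidAlgebra.single m 1 : As k d)) := by
      have h3 := (Finsupp.basisSingleOne (R := k) (ι := FreeMonoid (Fin d))).linearIndependent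
      have h4 : LinearIndependent k (fun m : FreeMonoid (Fin d) => (Finsupp.single m (1 : k))) := by
        simpa using h3
      rw [linearIndependent_iff'] at h4 ⊢
      intro s g hg i hi
      apply h4 s g _ i hi
      have h5 := congrArg MonoidAlgebra.coeff hg
      rw [MonoidAlgebra.coeff_sum] at h5
      simpa using h5
    exact h2.comp _ hinj
  have h := hli.fintype_card_le_finrank
  rw [Fintype.card_perm, Fintype.card_fin] at h
  show ((n + 1).factorial : ℤ) ≤ (Module.finrank k (altPiece k d μ) : ℤ)
  exact_mod_cast h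

end Pool.Agent.X170.Shang
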