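import Pool.Agent.X170.Shang.Defs

set_option autoImplicit false

namespace Pool.Agent.X170.Shang

lemma e_mul (γ δ : ℤ × ℤ) : e γ * e δ = e (γ + δ) := by
  unfold e; rw [AddMonoidAlgebra.single_mul_single, one_mul]

lemma e_zero : e (0, 0) = 1 := rfl

lemma coeff_e_mul (γ w : ℤ × ℤ) (f : Lau) : (e γ * f).coeff w = f.coeff (w - γ) := by
  unfold e
  rw [AddMonoidAlgebra.coeff_single_mul_eq_mul_coeff (w - γ), one_mul]
  intro m _
  constructor
  · intro h; rw [← h]; abel
  · intro h; rw [h]; abel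

def rowAdd : List ℤ → List ℤ → List ℤ
  | [], m => m
  | a :: l, [] => a :: l
  | a :: l, b :: m => (a + b) :: rowAdd l m

def tabAdd : List (List ℤ) → List (List ℤ) → List (List ℤ)
  | [], m => m
  | a :: l, [] => a :: l
  | a :: l, b :: m => rowAdd a b :: tabAdd l m

def sx (T : List (List ℤ)) : List (List ℤ) := T.map fun r => 0 :: r

def sy (T : List (List ℤ)) : List (List ℤ) := [] :: T

/-- multiplication by `e^{(1,1)} χ` -/
def step (T : List (List ℤ)) : List (List ℤ) :=
  let A := tabAdd T (sx T)              -- 1 + z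
  let B := tabAdd (tabAdd A (sx T)) (sx (sx T))  -- 1 + 2z + z²
  let C := tabAdd (sx T) (sx (sx T))    -- z + z²
  tabAdd A (sy (tabAdd B (sy C)))

def T0 : List (List ℤ) := [[-1, 1], [1, 0, -1], [0, -1, 1]]

def tab : ℕ → List (List ℤ)
  | 0 => T0
  | n + 1 => step (tab n)

noncomputable def evR : List ℤ → Lau
  | [] => 0
  | c :: l => AddMonoidAlgebra.single 0 c + e (1, 0) * evR l

noncomputable def evT : List (List ℤ) → Lau
  | [] => 0
  | r :: T => evR r + e (0, 1) * evT T

lemma evR_add (l m : List ℤ) : evR (rowAdd l m) = evR l + evR m := by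
  induction l generalizing m with
  | nil => simp [rowAdd, evR]
  | cons a l ih =>
    cases m with
    | nil => simp [rowAdd, evR]
    | cons b m =>
      simp only [rowAdd, evR, ih, AddMonoidAlgebra.single_add]
      ring

lemma evT_add (l m : List (List ℤ)) : evT (tabAdd l m) = evT l + evT m := by
  induction l generalizing m with
  | nil => simp [tabAdd, evT]
  | cons a l ih =>
    cases m with
    | nil => simp [tabAdd, evT]
    | cons b m =>
      simp only [tabAdd, evT, ih, evR_add]
      ring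

lemma evT_sx (T : List (List ℤ)) : evT (sx T) = e (1, 0) * evT T := by
  induction T with
  | nil => simp [sx, evT]
  | cons r T ih =>
    have h : sx (r :: T) = (0 :: r) :: sx T := rfl
    rw [h, evT, ih, evT, evR, AddMonoidAlgebra.single_zero]
    ring

lemma evT_sy (T : List (List ℤ)) : evT (sy T) = e (0, 1) * evT T := by
  simp [sy, evT, evR]

lemma K_eq : e (1, 1) * adj = 1 + e (1, 0) + e (0, 1) * (1 + 2 * e (1, 0) + e (1, 0) * e (1, 0)) +
    e (0, 1) * e (0, 1) * (e (1, 0) + e (1, 0) * e (1, 0)) := by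
  unfold adj
  simp only [mul_add, ← mul_assoc, mul_comm _ (2 : Lau), e_mul, mul_one]
  simp only [mul_comm _ (2 : Lau), mul_assoc, e_mul, ← e_zero]
  norm_num
  ring

lemma evT_step (T : List (List ℤ)) : evT (step T) = (e (1, 1) * adj) * evT T := by
  rw [K_eq]
  simp only [step, evT_add, evT_sx, evT_sy]
  ring

lemma evT_T0 : evT T0 = e (1, 1) * Del := by
  have h1 : ∀ c : ℤ, (AddMonoidAlgebra.single 0 c : Lau) = (c : Lau) := by
    intro c
    rw [show (c : Lau) = c • 1 by simp]
    rw [AddMonoidAlgebra.one_def, AddMonoidAlgebra.smul_single]; simp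
  simp only [T0, evT, evR, h1]
  unfold Del
  simp only [mul_sub, mul_add, e_mul, ← mul_assoc]
  push_cast
  simp only [mul_one, mul_zero, add_zero, zero_add, e_mul, mul_neg]
  norm_num
  simp only [← Prod.mk_zero_zero, e_zero]
  ring

lemma evT_tab (j : ℕ) : evT (tab j) = e ((j : ℤ) + 1, (j : ℤ) + 1) * (adj ^ j * Del) := by
  induction j with
  | zero => simp [tab, evT_T0]
  | succ j ih =>
    rw [tab, evT_step, ih]
    have h : e (((j + 1 : ℕ) : ℤ) + 1, ((j + 1 : ℕ) : ℤ) + 1) =
        e (1, 1) * e ((j : ℤ) + 1, (j : ℤ) + 1) := by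
      rw [e_mul]; congr 1; ext <;> simp <;> ring
    rw [h, pow_succ]; ring

lemma evR_coeff (l : List ℤ) (m n : ℤ) :
    (evR l).coeff (m, n) = if n = 0 ∧ 0 ≤ m then l.getD m.toNat 0 else 0 := by
  induction l generalizing m with
  | nil => simp [evR]
  | cons c l ih =>
    rw [evR, AddMonoidAlgebra.coeff_add, Finsupp.add_apply, coeff_e_mul]
    have h1 : ((m, n) : ℤ × ℤ) - (1, 0) = (m - 1, n) := by ext <;> simp
    rw [h1, ih, AddMonoidAlgebra.coeff_single, Finsupp.single_apply]
    by_cases hn : n = 0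
    · subst hn
      rcases lt_trichotomy m 0 with hm | hm | hm
      · have e1 : ¬ ((0 : ℤ × ℤ) = (m, 0)) := by
          intro h; have := congrArg Prod.fst h; simp at this; omega
        rw [if_neg e1, if_neg (by omega), if_neg (by omega)]; rfl
      · subst hm
        rw [if_pos (by rfl), if_neg (by omega), if_pos (by simp)]; simp
      · have e1 : ¬ ((0 : ℤ × ℤ) = (m, 0)) := by
          intro h; have := congrArg Prod.fst h; simp at this; omega
        rw [if_neg e1, if_pos (by omega), if_pos (by omega)]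
        obtain ⟨k, hk⟩ : ∃ k : ℕ, m = k + 1 := ⟨(m - 1).toNat, by omega⟩
        subst hk
        have e2 : ((k : ℤ) + 1).toNat = k + 1 := by omega
        have e3 : ((k : ℤ) + 1 - 1).toNat = k := by omega
        rw [e2, e3]; simp
    · have e1 : ¬ ((0 : ℤ × ℤ) = (m, n)) := by
        intro h; have := congrArg Prod.snd h; simp at this; omega
      rw [if_neg e1, if_neg (by tauto), if_neg (by tauto)]; rfl

lemma evT_coeff_neg (T : List (List ℤ)) (m n : ℤ) (hn : n < 0) : (evT T).coeff (m, n) = 0 := by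
  induction T generalizing n with
  | nil => rfl
  | cons r T ih =>
    rw [evT, AddMonoidAlgebra.coeff_add, Finsupp.add_apply, coeff_e_mul, evR_coeff,
      if_neg (by omega)]
    have h1 : ((m, n) : ℤ × ℤ) - (0, 1) = (m, n - 1) := by ext <;> simp
    rw [h1, ih _ (by omega), add_zero]

lemma evT_coeff (T : List (List ℤ)) (m n : ℕ) :
    (evT T).coeff ((m : ℤ), (n : ℤ)) = (T.getD n []).getD m 0 := by
  induction T generalizing n with
  | nil => simp [evT]
  | cons r T ih =>
    rw [evT, AddMonoidAlgebra.coeff_add, Finsupp.add_apply, coeff_e_mul, evR_coeff]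
    have h1 : (((m : ℤ), (n : ℤ)) : ℤ × ℤ) - (0, 1) = ((m : ℤ), (n : ℤ) - 1) := by ext <;> simp
    rw [h1]
    cases n with
    | zero =>
      rw [evT_coeff_neg _ _ _ (by simp)]; simp
    | succ n =>
      have h2 : (((n + 1 : ℕ) : ℤ) - 1) = (n : ℤ) := by push_cast; ring
      rw [h2, ih, if_neg (by push_cast; omega)]; simp

lemma mult_pow (j l : ℕ) :
    mult ((l : ℤ), (l : ℤ)) (adj ^ j) = ((tab j).getD (j + l + 2) []).getD (j + l + 2) 0 := by
  have h := evT_coeff (tab j) (j + l + 2) (j + l + 2)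
  rw [evT_tab, coeff_e_mul] at h
  rw [← h]
  unfold mult
  congr 1
  ext <;> simp <;> ring

lemma mult_zero_pow (j : ℕ) :
    mult (0, 0) (adj ^ j) = ((tab j).getD (j + 2) []).getD (j + 2) 0 := mult_pow j 0

lemma mult_one_pow (j : ℕ) :
    mult (1, 1) (adj ^ j) = ((tab j).getD (j + 3) []).getD (j + 3) 0 := mult_pow j 1

/-- number of invariants in the `j`-th tensor power of the adjoint module -/
def M : ℕ → ℤ
  | 0 => 1 | 1 => 0 | 2 => 1 | 3 => 2 | 4 => 8 | 5 => 32 | 6 => 145 | 7 => 702 | 8 => 3598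
  | 9 => 19280 | 10 => 107160 | _ => 0

lemma mult_zero_val (j : ℕ) (hj : j ≤ 9) : mult (0, 0) (adj ^ j) = M j := by
  rw [mult_zero_pow]
  have h : ∀ j ≤ 9, ((tab j).getD (j + 2) []).getD (j + 2) 0 = M j := by decide +kernel
  exact h j hj

lemma mult_one_val (j : ℕ) (hj : j ≤ 9) : mult (1, 1) (adj ^ j) = M (j + 1) := by
  rw [mult_one_pow]
  have h : ∀ j ≤ 9, ((tab j).getD (j + 3) []).getD (j + 3) 0 = M (j + 1) := by decide +kernel
  exact h j hj

end Pool.Agent.X170.Shang
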