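import Pool.Agent.X170.Shang.Rec
import Pool.Agent.X170.Shang.Mult

set_option autoImplicit false

namespace Pool.Agent.X170.Shang

open scoped BigOperators
open MvPowerSeries Finset

lemma mult_add (l : ℤ × ℤ) (X Y : Lau) : mult l (X + Y) = mult l X + mult l Y := by
  unfold mult; rw [add_mul, AddMonoidAlgebra.coeff_add]; rfl

lemma mult_smul (l : ℤ × ℤ) (c : ℤ) (X : Lau) : mult l (c • X) = c * mult l X := by
  unfold mult; rw [smul_mul_assoc, AddMonoidAlgebra.coeff_smul]; rfl

lemma mult_neg (l : ℤ × ℤ) (X : Lau) : mult l (-X) = -mult l X := by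
  have := mult_smul l (-1) X
  simpa using this

lemma mult_zero' (l : ℤ × ℤ) : mult l 0 = 0 := by
  have := mult_smul l 0 0
  simpa using this

/-- polynomials in the adjoint character -/
noncomputable def poly : List ℤ → Lau
  | [] => 0
  | c :: l => c • 1 + adj * poly l

lemma poly_add (l m : List ℤ) : poly (rowAdd l m) = poly l + poly m := by
  induction l generalizing m with
  | nil => simp [rowAdd, poly]
  | cons a l ih =>
    cases m with
    | nil => simp [rowAdd, poly]
    | cons b m =>
      simp only [rowAdd, poly, ih, add_smul]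
      ring

def smulL (c : ℤ) (l : List ℤ) : List ℤ := l.map fun x => c * x

lemma poly_smul (c : ℤ) (l : List ℤ) : poly (smulL c l) = c • poly l := by
  induction l with
  | nil => simp [smulL, poly]
  | cons a l ih =>
    have h : smulL c (a :: l) = (c * a) :: smulL c l := rfl
    rw [h, poly, ih, poly, smul_add, mul_smul, mul_smul_comm]

/-- multiplication by `a χ + b` -/
def lin (a b : ℤ) (l : List ℤ) : List ℤ := rowAdd (smulL b l) (0 :: smulL a l)

lemma poly_lin (a b : ℤ) (l : List ℤ) : poly (lin a b l) = (a • adj + b • 1) * poly l := by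
  unfold lin
  rw [poly_add, poly_smul, poly, poly_smul, zero_smul, zero_add, add_mul, smul_mul_assoc,
    smul_mul_assoc, one_mul, mul_smul_comm]
  abel

def dot : List ℤ → ℕ → ℤ
  | [], _ => 0
  | c :: l, j => c * M j + dot l (j + 1)

lemma mult_zero_poly (l : List ℤ) (j : ℕ) (h : j + l.length ≤ 10) :
    mult (0, 0) (adj ^ j * poly l) = dot l j := by
  induction l generalizing j with
  | nil => simp [poly, dot, mult_zero']
  | cons c l ih =>
    rw [List.length_cons] at h
    rw [poly, mul_add, mult_add, dot, mul_smul_comm, mul_one, mult_smul, mult_zero_val j (by omega),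
      ← mul_assoc, ← pow_succ, ih (j + 1) (by omega)]

lemma mult_one_poly (l : List ℤ) (j : ℕ) (h : j + l.length ≤ 10) :
    mult (1, 1) (adj ^ j * poly l) = dot l (j + 1) := by
  induction l generalizing j with
  | nil => simp [poly, dot, mult_zero']
  | cons c l ih =>
    rw [List.length_cons] at h
    rw [poly, mul_add, mult_add, dot, mul_smul_comm, mul_one, mult_smul, mult_one_val j (by omega),
      ← mul_assoc, ← pow_succ, ih (j + 1) (by omega)]

/-- the multilinear coefficients of `a(V)` -/
def al : ℕ → ℤ
  | 1 => 1 | 2 => 2 | 3 => 7 | 4 => 32 | 5 => 175 | 6 => 1080 | 7 => 7196 | 8 => 49616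
  | 9 => 336364 | _ => 0

/-- the multilinear coefficients of `b(V)` -/
def be : ℕ → ℤ
  | 1 => 0 | 2 => 1 | 3 => 4 | 4 => 21 | 5 => 128 | 6 => 875 | 7 => 6480 | 8 => 50372
  | 9 => 396928 | _ => 0

/-- the multilinear coefficients of `Φ` -/
def Pl : ℕ → List ℤ
  | 0 => [1]
  | 1 => [0, -1]
  | 2 => [-1, -2, 1]
  | 3 => [-4, -4, 6, -1]
  | 4 => [-18, -4, 34, -12, 1]
  | 5 => [-88, 65, 200, -120, 20, -1]
  | 6 => [-415, 1028, 1150, -1180, 305, -30, 1]
  | 7 => [-1272, 11970, 5222, -11725, 4340, -644, 42, -1]
  | 8 => [9450, 128056, -6300, -116592, 60900, -12376, 1204, -56, 1]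
  | 9 => [301936, 1287842, -732576, -1118320, 856632, -228522, 29904, -2064, 72, -1]
  | _ => []

/-- `∑_{m < n} C(n, m) (α_{m+1} χ + β_{m+1}) P_{n-m}` -/
def Rl (n : ℕ) : List ℤ :=
  (List.range n).foldr (fun m acc => rowAdd (smulL (n.choose m)
    (lin (al (m + 1)) (be (m + 1)) (Pl (n - m)))) acc) []

lemma foldr_poly (l : List ℕ) (f : ℕ → List ℤ) :
    poly (l.foldr (fun m acc => rowAdd (f m) acc) []) = (l.map fun m => poly (f m)).sum := by
  induction l with
  | nil => rfl
  | cons a l ih => rw [List.foldr_cons, poly_add, ih, List.map_cons, List.sum_cons]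

lemma poly_Rl (n : ℕ) : poly (Rl n) = ∑ m ∈ range n, (n.choose m : ℤ) •
    ((al (m + 1) • adj + be (m + 1) • 1) * poly (Pl (n - m))) := by
  unfold Rl
  rw [foldr_poly]
  simp only [poly_smul, poly_lin]
  rw [← List.sum_toFinset _ List.nodup_range, List.toFinset_range]

lemma table (n : ℕ) (hn : n ≤ 8) :
    (Rl n).length ≤ 10 ∧ dot (Rl n) 0 = - be (n + 1) ∧
    dot (Rl n) 1 = (if n = 0 then 1 else 0) - al (n + 1) ∧
    rowAdd (smulL (-1) (Rl n)) [-be (n + 1), -al (n + 1)] = Pl (n + 1) := by
  have h : ∀ n ≤ 8, (Rl n).length ≤ 10 ∧ dot (Rl n) 0 = - be (n + 1) ∧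
    dot (Rl n) 1 = (if n = 0 then 1 else 0) - al (n + 1) ∧
    rowAdd (smulL (-1) (Rl n)) [-be (n + 1), -al (n + 1)] = Pl (n + 1) := by decide +kernel
  exact h n hn

variable {d : ℕ}

theorem main (a b : MvPowerSeries (Fin d) ℤ) (h : Solves a b) (n : ℕ) (hn : n ≤ 9) :
    ∀ S : Finset (Fin d), S.card = n →
      coeff (ind S) (Phi a b) = poly (Pl n) ∧
      (S.Nonempty → coeff (ind S) a = al n ∧ coeff (ind S) b = be n) := by
  classical
  induction n using Nat.strong_induction_on with
  | _ n ih =>
  intro S hS
  rcases Nat.eq_zero_or_pos n with h0 | h0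
  · subst h0
    rw [Finset.card_eq_zero] at hS
    subst hS
    refine ⟨?_, fun h => absurd h (by simp)⟩
    have h1 := coeff_lam_empty (fun μ => coeff μ a • adj + coeff μ b • 1)
    show coeff (ind ∅) (lam _) = _
    rw [h1]; simp [Pl, poly]
  · obtain ⟨m, rfl⟩ : ∃ m, n = m + 1 := ⟨n - 1, by omega⟩
    obtain ⟨s, hs⟩ : S.Nonempty := Finset.card_pos.1 (by omega)
    set S' := S.erase s with hS'
    have hsS' : s ∉ S' := Finset.notMem_erase s S
    have hSS' : insert s S' = S := Finset.insert_erase hs
    have hcard : S'.card = m := by rw [hS', Finset.card_erase_of_mem hs, hS]; rfl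
    -- the recursion
    have hrec := coeff_lam_insert s (fun μ => coeff μ a • adj + coeff μ b • 1) S' hsS'
    have hc : ∀ T : Finset (Fin d), coeff (ind T)
        ((fun μ => coeff μ a • adj + coeff μ b • 1 : MvPowerSeries (Fin d) Lau)) =
        coeff (ind T) a • adj + coeff (ind T) b • 1 := fun T => rfl
    change coeff (ind (insert s S')) (Phi a b) = _ at hrec
    simp only [hc] at hrec
    change coeff (ind (insert s S')) (Phi a b) = -∑ U ∈ S'.powerset,
      (coeff (ind (insert s U)) a • adj + coeff (ind (insert s U)) b • 1) *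
        coeff (ind (S' \ U)) (Phi a b) at hrec
    -- split off U = S'
    have hsplit : ∑ U ∈ S'.powerset,
      (coeff (ind (insert s U)) a • adj + coeff (ind (insert s U)) b • 1) *
        coeff (ind (S' \ U)) (Phi a b) =
        (coeff (ind S) a • adj + coeff (ind S) b • 1) + poly (Rl m) := by
      rw [← Finset.add_sum_erase _ _ (Finset.mem_powerset_self S')]
      congr 1
      · rw [Finset.sdiff_self, hSS', (ih 0 (by omega) (by omega) ∅ rfl).1]
        simp [Pl, poly]
      · have h2 : ∀ U ∈ S'.powerset.erase S',
            (coeff (ind (insert s U)) a • adj + coeff (ind (insert s U)) b • 1) *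
              coeff (ind (S' \ U)) (Phi a b) =
            (fun j => if j < m then (al (j + 1) • adj + be (j + 1) • 1) * poly (Pl (m - j))
              else 0) U.card := by
          intro U hU
          rw [Finset.mem_erase, Finset.mem_powerset] at hU
          have hUc : U.card < m := by
            rw [← hcard]
            exact Finset.card_lt_card (Finset.ssubset_iff_subset_ne.2 ⟨hU.2, hU.1⟩)
          have hsU : s ∉ U := fun h => hsS' (hU.2 h)
          have hic : (insert s U).card = U.card + 1 := Finset.card_insert_of_notMem hsU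
          have h3 := (ih (U.card + 1) (by omega) (by omega) (insert s U) hic).2
            ⟨s, Finset.mem_insert_self s U⟩
          have h4 := (ih (m - U.card) (by omega) (by omega) (S' \ U) (by
            rw [Finset.card_sdiff_of_subset hU.2, hcard])).1
          rw [h3.1, h3.2, h4]
          simp only [hUc, if_true]
        rw [Finset.sum_congr rfl h2]
        have h5 : ∑ U ∈ S'.powerset.erase S',
            (fun j => if j < m then (al (j + 1) • adj + be (j + 1) • 1) * poly (Pl (m - j))
              else 0) U.card = ∑ U ∈ S'.powerset,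
            (fun j => if j < m then (al (j + 1) • adj + be (j + 1) • 1) * poly (Pl (m - j))
              else 0) U.card := by
          apply Finset.sum_erase
          simp [hcard]
        rw [h5]
        refine (Finset.sum_powerset_apply_card (fun j => if j < m then
          (al (j + 1) • adj + be (j + 1) • 1) * poly (Pl (m - j)) else 0)).trans ?_
        rw [hcard, poly_Rl, Finset.sum_range_succ]
        rw [if_neg (lt_irrefl m), smul_zero, add_zero]
        apply Finset.sum_congr rfl
        intro j hj
        rw [if_pos (Finset.mem_range.1 hj)]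
        simp
    rw [hsplit, hSS'] at hrec
    obtain ⟨t1, t2, t3, t4⟩ := table m (by omega)
    -- multiplicities
    have hS0 : S ≠ ∅ := fun h => by rw [h] at hs; exact absurd hs (Finset.notMem_empty s)
    have hm0 : mult (0, 0) (coeff (ind S) (Phi a b)) = 0 := by
      have h1 := congrArg (coeff (ind S)) h.triv
      have h2 : coeff (ind S) (coef (0, 0) (Phi a b)) = mult (0, 0) (coeff (ind S) (Phi a b)) :=
        rfl
      rw [← h2, h1, coeff_one, if_neg (fun h => hS0 (ind_eq_zero.1 h))]
    have hm1 : mult (1, 1) (coeff (ind S) (Phi a b)) = if m = 0 then -1 else 0 := by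
      have h1 := congrArg (coeff (ind S)) h.adj
      have h2 : coeff (ind S) (coef (1, 1) (Phi a b)) = mult (1, 1) (coeff (ind S) (Phi a b)) :=
        rfl
      rw [← h2, h1, map_neg, map_sum]
      by_cases hm : m = 0
      · rw [if_pos hm]
        rw [hm] at hS
        obtain ⟨i, hi⟩ := Finset.card_eq_one.1 hS
        subst hi
        have h3 : ind {i} = Finsupp.single i 1 := by simp [ind]
        rw [h3, Finset.sum_eq_single i]
        · rw [coeff_index_single_self_X]
        · intro j _ hj
          rw [coeff_index_single_X, if_neg (Ne.symm hj)]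
        · simp
      · rw [if_neg hm, neg_eq_zero]
        apply Finset.sum_eq_zero
        intro i _
        rw [coeff_X, if_neg]
        intro h3
        have h4 : ind S = ind {i} := by rw [h3]; simp [ind]
        have h5 := ind_inj h4
        rw [h5, Finset.card_singleton] at hS
        omega
    have p1 : mult (0, 0) (1 : Lau) = 1 := mult_zero_val 0 (by omega)
    have p2 : mult (0, 0) adj = 0 := by
      have := mult_zero_val 1 (by omega); rwa [pow_one] at this
    have p3 : mult (1, 1) (1 : Lau) = 0 := mult_one_val 0 (by omega)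
    have p4 : mult (1, 1) adj = 1 := by
      have := mult_one_val 1 (by omega); rwa [pow_one] at this
    have q1 : mult (0, 0) (poly (Rl m)) = dot (Rl m) 0 := by
      have := mult_zero_poly (Rl m) 0 (by omega); rwa [pow_zero, one_mul] at this
    have q2 : mult (1, 1) (poly (Rl m)) = dot (Rl m) 1 := by
      have := mult_one_poly (Rl m) 0 (by omega); rwa [pow_zero, one_mul] at this
    rw [hrec, mult_neg, mult_add, mult_add, mult_smul, mult_smul, p1, p2, q1, t2] at hm0
    rw [hrec, mult_neg, mult_add, mult_add, mult_smul, mult_smul, p3, p4, q2, t3] at hm1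
    have hb : coeff (ind S) b = be (m + 1) := by linarith
    have ha : coeff (ind S) a = al (m + 1) := by
      split_ifs at hm1 <;> linarith
    refine ⟨?_, fun _ => ⟨ha, hb⟩⟩
    rw [hrec, ha, hb, ← t4, poly_add, poly_smul]
    simp only [poly, mul_zero, add_zero, neg_smul, one_smul, mul_neg]
    rw [mul_smul_comm, mul_one]
    abel

end Pool.Agent.X170.Shang
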