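import Pool.Agent.X170.Shang.Defs

set_option autoImplicit false

namespace Pool.Agent.X170.Shang

open scoped BigOperators
open MvPowerSeries Finset

variable {d : ℕ}

lemma ind_apply (S : Finset (Fin d)) (i : Fin d) : ind S i = if i ∈ S then 1 else 0 := by
  unfold ind
  rw [Finsupp.finsetSum_apply]
  simp [Finsupp.single_apply]

lemma ind_empty : ind (∅ : Finset (Fin d)) = 0 := by simp [ind]

lemma ind_inj {S T : Finset (Fin d)} (h : ind S = ind T) : S = T := by
  ext i
  have h1 := DFunLike.congr_fun h i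
  rw [ind_apply, ind_apply] at h1
  by_cases hS : i ∈ S <;> by_cases hT : i ∈ T <;> simp_all

lemma ind_eq_zero {S : Finset (Fin d)} : ind S = 0 ↔ S = ∅ := by
  constructor
  · intro h; exact ind_inj (h.trans ind_empty.symm)
  · rintro rfl; exact ind_empty

lemma ind_support (S : Finset (Fin d)) : (ind S).support = S := by
  ext i
  rw [Finsupp.mem_support_iff, ind_apply]
  simp

lemma eq_ind_of_le {μ : Fin d →₀ ℕ} {S : Finset (Fin d)} (h : μ ≤ ind S) :
    μ = ind μ.support ∧ μ.support ⊆ S := by
  constructor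
  · ext i
    rw [ind_apply]
    have h1 := h i
    rw [ind_apply] at h1
    by_cases h2 : μ i = 0
    · simp [h2]
    · have h3 : i ∈ μ.support := Finsupp.mem_support_iff.2 h2
      rw [if_pos h3]
      split_ifs at h1 <;> omega
  · intro i hi
    have h1 := h i
    rw [ind_apply] at h1
    have h2 := Finsupp.mem_support_iff.1 hi
    by_contra h3
    rw [if_neg h3] at h1
    omega

lemma ind_mono {S T : Finset (Fin d)} (h : S ⊆ T) : ind S ≤ ind T := by
  intro i
  rw [ind_apply, ind_apply]
  by_cases hS : i ∈ S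
  · simp [hS, h hS]
  · simp [hS]

lemma ind_add {S T : Finset (Fin d)} (h : T ⊆ S) : ind T + ind (S \ T) = ind S := by
  ext i
  rw [Finsupp.add_apply, ind_apply, ind_apply, ind_apply]
  by_cases hT : i ∈ T
  · simp [hT, h hT]
  · simp [hT]

variable {L : Type*} [CommRing L]

lemma coeff_ind_mul (S : Finset (Fin d)) (f g : MvPowerSeries (Fin d) L) :
    coeff (ind S) (f * g) = ∑ T ∈ S.powerset, coeff (ind T) f * coeff (ind (S \ T)) g := by
  classical
  rw [coeff_mul]
  symm
  refine Finset.sum_nbij' (fun T => (ind T, ind (S \ T))) (fun p => p.1.support) ?_ ?_ ?_ ?_ ?_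
  · intro T hT
    rw [Finset.mem_powerset] at hT
    rw [HasAntidiagonal.mem_antidiagonal]
    exact ind_add hT
  · intro p hp
    rw [HasAntidiagonal.mem_antidiagonal] at hp
    rw [Finset.mem_powerset]
    exact (eq_ind_of_le (hp ▸ le_self_add)).2
  · intro T _
    exact ind_support T
  · intro p hp
    rw [HasAntidiagonal.mem_antidiagonal] at hp
    have h1 := eq_ind_of_le (S := S) (μ := p.1) (hp ▸ le_self_add)
    have h2 : ind p.1.support = p.1 := h1.1.symm
    have h3 : p.1 + ind (S \ p.1.support) = p.1 + p.2 := by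
      rw [hp, ← ind_add h1.2, h2]
    ext1
    · exact h2
    · exact add_left_cancel h3
  · intro T _
    rfl

/-- the ideal of the series without multilinear terms -/
def J (d : ℕ) (L : Type*) [CommRing L] : Ideal (MvPowerSeries (Fin d) L) where
  carrier := {f | ∀ S : Finset (Fin d), coeff (ind S) f = 0}
  add_mem' := fun {f g} hf hg S => by rw [map_add, hf S, hg S, add_zero]
  zero_mem' := fun S => map_zero _
  smul_mem' := fun f g hg S => by
    rw [smul_eq_mul, coeff_ind_mul]
    exact Finset.sum_eq_zero fun T _ => by rw [hg, mul_zero]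

lemma mk_eq_iff {f g : MvPowerSeries (Fin d) L} :
    Ideal.Quotient.mk (J d L) f = Ideal.Quotient.mk (J d L) g ↔
      ∀ S : Finset (Fin d), coeff (ind S) f = coeff (ind S) g := by
  rw [Ideal.Quotient.eq]
  constructor
  · intro h S
    have := h S
    rw [map_sub, sub_eq_zero] at this
    exact this
  · intro h S
    rw [map_sub, h S, sub_self]

lemma coeff_mon (U T : Finset (Fin d)) (c : L) :
    coeff (ind U) (monomial (ind T) c) = if U = T then c else 0 := by
  classical
  rw [coeff_monomial]
  by_cases h : U = T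
  · rw [h]; simp
  · rw [if_neg h, if_neg]
    intro h1; exact h (ind_inj h1)

lemma mk_mon_mul {T U : Finset (Fin d)} (h : ¬ Disjoint T U) (a b : L) :
    Ideal.Quotient.mk (J d L) (monomial (ind T) a) *
      Ideal.Quotient.mk (J d L) (monomial (ind U) b) = 0 := by
  classical
  rw [← map_mul, monomial_mul_monomial, ← map_zero (Ideal.Quotient.mk (J d L)), mk_eq_iff]
  intro S
  rw [coeff_monomial, if_neg, map_zero]
  intro h1
  rw [Finset.not_disjoint_iff] at h
  obtain ⟨i, hi, hi'⟩ := h
  have h2 := DFunLike.congr_fun h1 i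
  rw [Finsupp.add_apply, ind_apply, ind_apply, ind_apply, if_pos hi, if_pos hi'] at h2
  split_ifs at h2 <;> omega

/-- products of `1 - X_T C_T` over pairwise intersecting sets -/
lemma mk_prod_inter {ι : Type*} (s : Finset ι) (T : ι → Finset (Fin d)) (c : ι → L)
    (h : ∀ i ∈ s, ∀ j ∈ s, ¬ Disjoint (T i) (T j)) :
    Ideal.Quotient.mk (J d L) (∏ i ∈ s, (1 - monomial (ind (T i)) (c i))) =
      1 - ∑ i ∈ s, Ideal.Quotient.mk (J d L) (monomial (ind (T i)) (c i)) := by
  classical
  induction s using Finset.induction_on with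
  | empty => simp
  | insert a s ha ih =>
    rw [Finset.prod_insert ha, map_mul, ih fun i hi j hj => h i (mem_insert_of_mem hi) j
      (mem_insert_of_mem hj), Finset.sum_insert ha, map_sub, map_one, sub_mul, mul_sub, mul_sub,
      one_mul, one_mul, mul_one, Finset.mul_sum]
    rw [Finset.sum_eq_zero (s := s) (f := fun i =>
      Ideal.Quotient.mk (J d L) (monomial (ind (T a)) (c a)) *
        Ideal.Quotient.mk (J d L) (monomial (ind (T i)) (c i)))]
    · ring
    · intro i hi
      exact mk_mon_mul (h a (mem_insert_self a s) i (mem_insert_of_mem hi)) _ _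

lemma mk_pow {T : Finset (Fin d)} (hT : T.Nonempty) (c : L) (n : ℕ) :
    Ideal.Quotient.mk (J d L) ((1 - monomial (ind T) c) ^ n) =
      1 - Ideal.Quotient.mk (J d L) (monomial (ind T) (n • c)) := by
  have h := mk_prod_inter (range n) (fun _ => T) (fun _ => c) (by
    intro i _ j _
    rw [disjoint_self, Finset.bot_eq_empty]
    exact hT.ne_empty)
  rw [Finset.prod_const, card_range] at h
  rw [h, Finset.sum_const, card_range, ← map_nsmul, ← map_nsmul]

lemma mk_inv {T : Finset (Fin d)} (hT : T.Nonempty) (c : L) :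
    Ideal.Quotient.mk (J d L) (invOfUnit (1 - monomial (ind T) c) 1) =
      1 - Ideal.Quotient.mk (J d L) (monomial (ind T) (-c)) := by
  classical
  have h0 : constantCoeff (1 - monomial (ind T) c : MvPowerSeries (Fin d) L) = ((1 : Lˣ) : L) := by
    rw [map_sub, map_one, ← coeff_zero_eq_constantCoeff_apply, coeff_monomial, if_neg, sub_zero,
      Units.val_one]
    intro h
    exact hT.ne_empty (ind_eq_zero.1 h.symm)
  have h1 := mul_invOfUnit (1 - monomial (ind T) c : MvPowerSeries (Fin d) L) 1 h0
  have h2 := congrArg (Ideal.Quotient.mk (J d L)) h1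
  rw [map_mul, map_sub, map_one] at h2
  set X := Ideal.Quotient.mk (J d L) (monomial (ind T) c) with hX
  set I := Ideal.Quotient.mk (J d L) (invOfUnit (1 - monomial (ind T) c) 1) with hI
  have hXX : X * X = 0 := mk_mon_mul (by
    rw [disjoint_self, Finset.bot_eq_empty]
    exact hT.ne_empty) _ _
  have h3 : Ideal.Quotient.mk (J d L) (monomial (ind T) (-c)) = -X := by
    rw [map_neg, map_neg]
  rw [h3]
  calc I = (1 + X) * ((1 - X) * I) + X * X * I := by ring
    _ = 1 - -X := by rw [h2, hXX]; ring

lemma mk_oneSubPow {T : Finset (Fin d)} (hT : T.Nonempty) (γ : ℤ × ℤ) (m : ℤ) :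
    Ideal.Quotient.mk (J d Lau) (oneSubPow (ind T) γ m) =
      1 - Ideal.Quotient.mk (J d Lau) (monomial (ind T) (AddMonoidAlgebra.single γ m)) := by
  match m with
  | Int.ofNat n =>
    show Ideal.Quotient.mk (J d Lau) ((1 - monomial (ind T) (e γ)) ^ n) = _
    rw [mk_pow hT]
    unfold e
    rw [AddMonoidAlgebra.smul_single]
    simp
  | Int.negSucc n =>
    show Ideal.Quotient.mk (J d Lau) ((invOfUnit (1 - monomial (ind T) (e γ)) 1) ^ (n + 1)) = _
    rw [map_pow, mk_inv hT, ← map_one (Ideal.Quotient.mk (J d Lau)), ← map_sub, ← map_pow,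
      mk_pow hT, ← map_one (Ideal.Quotient.mk (J d Lau)), ← map_sub]
    congr 3
    unfold e
    rw [smul_neg, AddMonoidAlgebra.smul_single, Int.negSucc_eq]
    simp

/-- the multilinear coefficients of `λ(c)` are those of `∏_T (1 - x_T c_T)` -/
lemma coeff_lam (c : MvPowerSeries (Fin d) Lau) (S : Finset (Fin d)) :
    coeff (ind S) (lam c) = coeff (ind S)
      (∏ T ∈ S.powerset.erase ∅, (1 - monomial (ind T) (coeff (ind T) c))) := by
  classical
  have h1 : (Finset.Iic (ind S)).erase 0 = (S.powerset.erase ∅).image ind := by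
    ext μ
    rw [Finset.mem_erase, Finset.mem_Iic, Finset.mem_image]
    constructor
    · rintro ⟨h0, h2⟩
      obtain ⟨h3, h4⟩ := eq_ind_of_le h2
      refine ⟨μ.support, ?_, h3.symm⟩
      rw [Finset.mem_erase, Finset.mem_powerset]
      refine ⟨fun h5 => h0 ?_, h4⟩
      rw [h3, h5, ind_empty]
    · rintro ⟨T, hT, rfl⟩
      rw [Finset.mem_erase, Finset.mem_powerset] at hT
      exact ⟨fun h => hT.1 (ind_eq_zero.1 h), ind_mono hT.2⟩
  show coeff (ind S) (∏ μ ∈ (Finset.Iic (ind S)).erase 0,
    ∏ γ ∈ (coeff μ c).coeff.support, oneSubPow μ γ ((coeff μ c).coeff γ)) = _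
  rw [h1, Finset.prod_image (fun T _ U _ h => ind_inj h)]
  apply mk_eq_iff.1
  rw [map_prod, map_prod]
  apply Finset.prod_congr rfl
  intro T hT
  rw [Finset.mem_erase, Finset.mem_powerset] at hT
  have hTn : T.Nonempty := Finset.nonempty_iff_ne_empty.2 hT.1
  rw [map_prod]
  rw [Finset.prod_congr rfl fun γ _ => mk_oneSubPow hTn γ ((coeff (ind T) c).coeff γ)]
  have h2 := mk_prod_inter ((coeff (ind T) c).coeff.support) (fun _ => T)
    (fun γ => AddMonoidAlgebra.single γ ((coeff (ind T) c).coeff γ)) (by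
      intro i _ j _
      rw [disjoint_self, Finset.bot_eq_empty]
      exact hTn.ne_empty)
  rw [map_prod] at h2
  simp only [map_sub, map_one] at h2 ⊢
  rw [h2, ← map_sum, ← map_sum]
  congr 3
  exact AddMonoidAlgebra.sum_coeff_single _

/-- multiplying by `1 - x_T C` with `T ⊄ S` does not change the coefficient at `S` -/
lemma coeff_mul_of_not_subset {S T : Finset (Fin d)} (h : ¬ T ⊆ S) (hT : T.Nonempty) (c : L)
    (f : MvPowerSeries (Fin d) L) :
    coeff (ind S) ((1 - monomial (ind T) c) * f) = coeff (ind S) f := by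
  classical
  rw [sub_mul, one_mul, map_sub, coeff_ind_mul, Finset.sum_eq_zero, sub_zero]
  intro U hU
  rw [Finset.mem_powerset] at hU
  rw [coeff_mon, if_neg, zero_mul]
  rintro rfl
  exact h hU

end Pool.Agent.X170.Shang

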