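import Pool.Agent.X170.Shang.Ml

set_option autoImplicit false

namespace Pool.Agent.X170.Shang

open scoped BigOperators
open MvPowerSeries Finset

variable {d : ℕ} {L : Type*} [CommRing L]

lemma coeff_prod_not_subset (S : Finset (Fin d)) (𝒯 : Finset (Finset (Fin d)))
    (h : ∀ T ∈ 𝒯, ¬ T ⊆ S ∧ T.Nonempty) (c : Finset (Fin d) → L) (f : MvPowerSeries (Fin d) L) :
    coeff (ind S) ((∏ T ∈ 𝒯, (1 - monomial (ind T) (c T))) * f) = coeff (ind S) f := by
  classical
  induction 𝒯 using Finset.induction_on with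
  | empty => simp
  | insert a s ha ih =>
    rw [Finset.prod_insert ha, mul_assoc,
      coeff_mul_of_not_subset (h a (mem_insert_self a s)).1 (h a (mem_insert_self a s)).2]
    exact ih fun T hT => h T (mem_insert_of_mem hT)

/-- product over all nonempty sets -/
noncomputable def Fu (c : Finset (Fin d) → L) : MvPowerSeries (Fin d) L :=
  ∏ T ∈ univ.erase ∅, (1 - monomial (ind T) (c T))

lemma coeff_sub (c : Finset (Fin d) → L) (S : Finset (Fin d)) :
    coeff (ind S) (∏ T ∈ S.powerset.erase ∅, (1 - monomial (ind T) (c T))) =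
      coeff (ind S) (Fu c) := by
  classical
  unfold Fu
  have h1 : S.powerset.erase ∅ ⊆ (univ : Finset (Finset (Fin d))).erase ∅ :=
    Finset.erase_subset_erase _ (Finset.subset_univ _)
  rw [← Finset.prod_sdiff h1, coeff_prod_not_subset]
  intro T hT
  rw [Finset.mem_sdiff, Finset.mem_erase, Finset.mem_erase, Finset.mem_powerset] at hT
  refine ⟨fun h => hT.2 ⟨hT.1.1, h⟩, Finset.nonempty_iff_ne_empty.2 hT.1.1⟩

/-- the product over the sets not containing `s` has no multilinear term involving `s` -/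
lemma coeff_B (s : Fin d) (𝒯 : Finset (Finset (Fin d))) (h : ∀ T ∈ 𝒯, s ∉ T)
    (c : Finset (Fin d) → L) (S : Finset (Fin d)) (hs : s ∈ S) :
    coeff (ind S) (∏ T ∈ 𝒯, (1 - monomial (ind T) (c T))) = 0 := by
  classical
  induction 𝒯 using Finset.induction_on generalizing S with
  | empty =>
    rw [Finset.prod_empty, coeff_one, if_neg]
    intro h1
    rw [ind_eq_zero] at h1
    rw [h1] at hs
    exact absurd hs (Finset.notMem_empty s)
  | insert a t ha ih =>
    have ih' := ih (fun T hT => h T (mem_insert_of_mem hT))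
    rw [Finset.prod_insert ha, sub_mul, one_mul, map_sub, ih' S hs, coeff_ind_mul, zero_sub,
      neg_eq_zero]
    apply Finset.sum_eq_zero
    intro U hU
    rw [coeff_mon]
    split_ifs with h1
    · have h2 : s ∉ U := h1 ▸ h a (mem_insert_self a t)
      rw [ih' (S \ U) (Finset.mem_sdiff.2 ⟨hs, h2⟩), mul_zero]
    · rw [zero_mul]

/-- the product over sets containing `s` -/
lemma coeff_A (s : Fin d) (𝒯 : Finset (Finset (Fin d))) (h : ∀ T ∈ 𝒯, s ∈ T)
    (c : Finset (Fin d) → L) (S : Finset (Fin d)) :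
    coeff (ind S) (∏ T ∈ 𝒯, (1 - monomial (ind T) (c T))) =
      (if S = ∅ then 1 else 0) - if S ∈ 𝒯 then c S else 0 := by
  classical
  have h1 := mk_prod_inter 𝒯 (fun T => T) c (by
    intro i hi j hj
    rw [Finset.not_disjoint_iff]
    exact ⟨s, h i hi, h j hj⟩)
  rw [← map_one (Ideal.Quotient.mk (J d L)), ← map_sum, ← map_sub] at h1
  rw [mk_eq_iff.1 h1 S, map_sub, map_sum, coeff_one]
  congr 1
  · simp only [ind_eq_zero]
  · simp only [coeff_mon]
    rw [Finset.sum_ite_eq]

lemma Fu_split (s : Fin d) (c : Finset (Fin d) → L) :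
    Fu c = (∏ T ∈ univ.filter (fun T : Finset (Fin d) => s ∈ T),
      (1 - monomial (ind T) (c T))) *
      ∏ T ∈ (univ.erase ∅).filter (fun T : Finset (Fin d) => s ∉ T),
        (1 - monomial (ind T) (c T)) := by
  classical
  unfold Fu
  rw [← Finset.prod_filter_mul_prod_filter_not (univ.erase ∅) (fun T : Finset (Fin d) => s ∈ T)]
  congr 1
  apply Finset.prod_congr _ fun _ _ => rfl
  ext T
  simp only [Finset.mem_filter, Finset.mem_erase, Finset.mem_univ, and_true, true_and]
  constructor
  · exact fun h => h.2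
  · intro h
    refine ⟨?_, h⟩
    rintro rfl
    exact absurd h (Finset.notMem_empty s)

lemma coeff_Fu_not_mem (s : Fin d) (c : Finset (Fin d) → L) (U : Finset (Fin d)) (hU : s ∉ U) :
    coeff (ind U) (Fu c) = coeff (ind U)
      (∏ T ∈ (univ.erase ∅).filter (fun T : Finset (Fin d) => s ∉ T),
        (1 - monomial (ind T) (c T))) := by
  classical
  rw [Fu_split s, coeff_prod_not_subset]
  intro T hT
  rw [Finset.mem_filter] at hT
  exact ⟨fun h => hU (h hT.2), ⟨s, hT.2⟩⟩

lemma coeff_Fu_insert (s : Fin d) (c : Finset (Fin d) → L) (S : Finset (Fin d)) (hs : s ∉ S) :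
    coeff (ind (insert s S)) (Fu c) =
      -∑ U ∈ S.powerset, c (insert s U) * coeff (ind (S \ U)) (Fu c) := by
  classical
  rw [Fu_split s, coeff_ind_mul, Finset.sum_powerset_insert hs]
  have h1 : ∑ t ∈ S.powerset, coeff (ind t) (∏ T ∈ univ.filter (fun T : Finset (Fin d) => s ∈ T),
      (1 - monomial (ind T) (c T))) * coeff (ind (insert s S \ t))
      (∏ T ∈ (univ.erase ∅).filter (fun T : Finset (Fin d) => s ∉ T),
        (1 - monomial (ind T) (c T))) = 0 := by
    apply Finset.sum_eq_zero
    intro t ht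
    rw [Finset.mem_powerset] at ht
    rw [coeff_B s _ (fun T hT => (Finset.mem_filter.1 hT).2) c (insert s S \ t)
      (Finset.mem_sdiff.2 ⟨mem_insert_self s S, fun h => hs (ht h)⟩), mul_zero]
  rw [h1, zero_add, ← Finset.sum_neg_distrib]
  apply Finset.sum_congr rfl
  intro U hU
  rw [Finset.mem_powerset] at hU
  rw [coeff_A s _ (fun T hT => (Finset.mem_filter.1 hT).2), if_neg (Finset.insert_ne_empty s U),
    if_pos (by simp), zero_sub, neg_mul]
  have h2 : insert s S \ insert s U = S \ U := by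
    ext i
    simp only [Finset.mem_sdiff, Finset.mem_insert, not_or]
    constructor
    · rintro ⟨h3 | h3, h4, h5⟩
      · exact absurd h3 h4
      · exact ⟨h3, h5⟩
    · rintro ⟨h3, h5⟩
      exact ⟨Or.inr h3, fun h => hs (h ▸ h3), h5⟩
  rw [h2, ← Fu_split s, coeff_Fu_not_mem s c (S \ U) (fun h => hs (Finset.mem_sdiff.1 h).1)]

lemma coeff_lam' (c : MvPowerSeries (Fin d) Lau) (S : Finset (Fin d)) :
    coeff (ind S) (lam c) = coeff (ind S) (Fu fun T => coeff (ind T) c) :=
  (coeff_lam c S).trans (coeff_sub (fun T => coeff (ind T) c) S)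

theorem coeff_lam_insert (s : Fin d) (c : MvPowerSeries (Fin d) Lau) (S : Finset (Fin d))
    (hs : s ∉ S) :
    coeff (ind (insert s S)) (lam c) =
      -∑ U ∈ S.powerset, coeff (ind (insert s U)) c * coeff (ind (S \ U)) (lam c) := by
  have h1 := coeff_Fu_insert s (fun T => coeff (ind T) c) S hs
  have h2 : ∀ U, coeff (ind (S \ U)) (lam c) = coeff (ind (S \ U)) (Fu fun T => coeff (ind T) c) :=
    fun U => coeff_lam' c _
  simp only [h2]
  exact (coeff_lam' c _).trans h1

theorem coeff_lam_empty (c : MvPowerSeries (Fin d) Lau) :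
    coeff (ind ∅) (lam c) = 1 := by
  classical
  rw [coeff_lam, Finset.powerset_empty]
  have h : (({∅} : Finset (Finset (Fin d))).erase ∅) = ∅ := by simp
  rw [h, Finset.prod_empty, ind_empty, coeff_zero_one]

end Pool.Agent.X170.Shang
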